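import Pool.Agent.Helper60.AD.Defs
import Pool.Agent.Helper22.AE.D3

/-! AD (MP_fb29e9_nt), block A2: the number of frequencies, and the arcs. -/

open MeasureTheory Real Set Filter Topology

set_option autoImplicit false

namespace Pool.Agent.Helper43.AD

open Pool.Agent.Helper22.AE Pool.Agent.Helper60.AD
open Pool.Agent.Helper92.GC (dt sqa)

/-- integers in a set of small diameter -/
theorem card_int_le (F : Finset ℤ) {V : ℝ} (hV : 0 ≤ V)
    (h : ∀ a ∈ F, ∀ b ∈ F, |(a : ℝ) - b| ≤ V) : (F.card : ℝ) ≤ V + 1 := by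
  rcases F.eq_empty_or_nonempty with rfl | hne
  · simp only [Finset.card_empty, Nat.cast_zero]
    linarith
  have h1 := F.min'_mem hne
  have h2 := F.max'_mem hne
  have h3 : F ⊆ Finset.Icc (F.min' hne) (F.max' hne) := fun a ha =>
    Finset.mem_Icc.2 ⟨F.min'_le a ha, F.le_max' a ha⟩
  have h4 := Finset.card_le_card h3
  rw [Int.card_Icc] at h4
  have h5 : F.min' hne ≤ F.max' hne := F.min'_le _ h2
  have h6 : ((F.max' hne + 1 - F.min' hne).toNat : ℤ) = F.max' hne + 1 - F.min' hne :=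
    Int.toNat_of_nonneg (by omega)
  have h7 : (F.card : ℤ) ≤ F.max' hne + 1 - F.min' hne := by
    rw [← h6]
    exact_mod_cast h4
  have h8 : (F.card : ℝ) ≤ (F.max' hne : ℝ) + 1 - F.min' hne := by exact_mod_cast h7
  have h9 := (le_abs_self _).trans (h _ h2 _ h1)
  linarith

/-- lattice points in a strip -/
theorem card_strip (F : Finset (ℤ × ℤ)) {X V : ℝ} (hX : 0 ≤ X) (hV : 0 ≤ V)
    (h1 : ∀ m ∈ F, |(m.1 : ℝ)| ≤ X) (h2 : ∀ m ∈ F, ∀ m' ∈ F, m.1 = m'.1 → |(m.2 : ℝ) - m'.2| ≤ V) :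
    (F.card : ℝ) ≤ (2 * X + 1) * (V + 1) := by
  classical
  have h3 : F.card = ∑ i ∈ F.image Prod.fst, (F.filter fun m => m.1 = i).card :=
    Finset.card_eq_sum_card_image Prod.fst F
  have h4 : ∀ i ∈ F.image Prod.fst, ((F.filter fun m => m.1 = i).card : ℝ) ≤ V + 1 := by
    intro i _
    have h5 : (F.filter fun m => m.1 = i).card = ((F.filter fun m => m.1 = i).image Prod.snd).card := by
      rw [Finset.card_image_of_injOn]
      intro m hm m' hm' h
      have e1 := (Finset.mem_filter.1 hm).2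
      have e2 := (Finset.mem_filter.1 hm').2
      exact Prod.ext (e1.trans e2.symm) h
    rw [h5]
    refine card_int_le _ hV fun a ha b hb => ?_
    obtain ⟨m, hm, rfl⟩ := Finset.mem_image.1 ha
    obtain ⟨m', hm', rfl⟩ := Finset.mem_image.1 hb
    obtain ⟨hm1, hm2⟩ := Finset.mem_filter.1 hm
    obtain ⟨hm3, hm4⟩ := Finset.mem_filter.1 hm'
    exact h2 m hm1 m' hm3 (hm2.trans hm4.symm)
  have h6 : ((F.image Prod.fst).card : ℝ) ≤ 2 * X + 1 := by
    refine card_int_le _ (by linarith) fun a ha b hb => ?_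
    obtain ⟨m, hm, rfl⟩ := Finset.mem_image.1 ha
    obtain ⟨m', hm', rfl⟩ := Finset.mem_image.1 hb
    have h7 := h1 m hm
    have h8 := h1 m' hm'
    calc |(m.1 : ℝ) - m'.1| ≤ |(m.1 : ℝ)| + |(m'.1 : ℝ)| := abs_sub _ _
      _ ≤ 2 * X := by linarith
  rw [h3, Nat.cast_sum]
  calc ∑ i ∈ F.image Prod.fst, ((F.filter fun m => m.1 = i).card : ℝ)
      ≤ ∑ _i ∈ F.image Prod.fst, (V + 1) := Finset.sum_le_sum h4
    _ = ((F.image Prod.fst).card : ℝ) * (V + 1) := by rw [Finset.sum_const, nsmul_eq_mul]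
    _ ≤ (2 * X + 1) * (V + 1) := mul_le_mul_of_nonneg_right h6 (by linarith)

/-- the coordinates of a lattice point -/
theorem cz_polar (k : ℤ × ℤ) : (k.1 : ℝ) = nk k * cos (2 * π * xk k) ∧
    (k.2 : ℝ) = nk k * sin (2 * π * xk k) := by
  have h1 : cz k = (nk k : ℂ) * zk k := by
    rw [nk, zk, tk]
    exact (Complex.norm_mul_exp_arg_mul_I (cz k)).symm
  rw [zk_xk] at h1
  constructor
  · have h2 := congrArg Complex.re h1
    rw [Complex.re_ofReal_mul, Complex.exp_ofReal_mul_I_re] at h2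
    exact h2
  · have h2 := congrArg Complex.im h1
    rw [Complex.im_ofReal_mul, Complex.exp_ofReal_mul_I_im] at h2
    exact h2

/-- the distance from the line of the direction `θ` -/
theorem cross_le {B : Finset (ℤ × ℤ)} {N j : ℕ} (hN : 0 < N) {k : ℤ × ℤ} (hk : k ∈ arcSet B N j) :
    |(k.1 : ℝ) * sin (2 * π * (j / N)) - k.2 * cos (2 * π * (j / N))| ≤ nk k * (2 * π / N) := by
  classical
  have hN' : (0 : ℝ) < N := by exact_mod_cast hN
  have h1 : ⌊(N : ℝ) * xk k⌋₊ = j := (Finset.mem_filter.1 hk).2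
  have hx : 0 ≤ xk k := Int.fract_nonneg _
  have h2 : (j : ℝ) ≤ N * xk k := by
    rw [← h1]
    exact Nat.floor_le (mul_nonneg hN'.le hx)
  have h3 : (N : ℝ) * xk k < j + 1 := by
    rw [← h1]
    exact Nat.lt_floor_add_one _
  obtain ⟨e1, e2⟩ := cz_polar k
  have h4 : (k.1 : ℝ) * sin (2 * π * (j / N)) - k.2 * cos (2 * π * (j / N)) =
      nk k * sin (2 * π * (j / N) - 2 * π * xk k) := by
    rw [e1, e2, sin_sub]
    ring
  have hnk : 0 ≤ nk k := norm_nonneg _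
  rw [h4, abs_mul, abs_of_nonneg hnk]
  refine mul_le_mul_of_nonneg_left ?_ hnk
  refine (abs_sin_le_abs (x := 2 * π * (j / N) - 2 * π * xk k)).trans ?_
  have h5 : 2 * π * (j / N) - 2 * π * xk k = -(2 * π / N * (N * xk k - j)) := by
    field_simp
    ring
  rw [h5, abs_neg, abs_mul, abs_of_nonneg (by positivity : (0 : ℝ) ≤ 2 * π / N),
    abs_of_nonneg (by linarith)]
  have h6 : (0 : ℝ) ≤ 2 * π / N := by positivity
  calc 2 * π / N * (N * xk k - j) ≤ 2 * π / N * 1 := mul_le_mul_of_nonneg_left (by linarith) h6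
    _ = 2 * π / N := mul_one _

theorem abs_fst_le (k : ℤ × ℤ) : |(k.1 : ℝ)| ≤ nk k := Complex.abs_re_le_norm (cz k)

theorem abs_snd_le (k : ℤ × ℤ) : |(k.2 : ℝ)| ≤ nk k := Complex.abs_im_le_norm (cz k)

theorem nk_lt {n : ℕ} {k : ℤ × ℤ} (hk : k ∈ blk n) : nk k < 2 ^ (n + 1) := by
  classical
  exact (Finset.mem_filter.1 hk).2.2

theorem fq_card {J n M s j : ℕ} (hM : 1 ≤ M) (A : Fin J → Finset (ℤ × ℤ))
    (hA : ∀ t, A t ⊆ arcSet (blk n) (8 * M ^ s) j) :
    ((fq A).card : ℝ) ≤ (8 * J * 2 ^ n + 1) * (5 * J * 2 ^ n / M ^ s + 1) := by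
  classical
  have hM0 : (0 : ℝ) < M := by exact_mod_cast hM
  have hMs : (0 : ℝ) < (M : ℝ) ^ s := pow_pos hM0 s
  have hN : 0 < 8 * M ^ s := by positivity
  obtain ⟨θ, hθ⟩ : ∃ θ : ℝ, θ = 2 * π * (j / (8 * M ^ s : ℕ)) := ⟨_, rfl⟩
  obtain ⟨X, hX⟩ : ∃ X : ℝ, X = J * 2 ^ (n + 1) := ⟨_, rfl⟩
  obtain ⟨W, hW⟩ : ∃ W : ℝ, W = J * (2 ^ (n + 1) * (2 * π / (8 * M ^ s : ℕ))) := ⟨_, rfl⟩
  have hX0 : 0 ≤ X := by
    rw [hX]
    positivity
  have hW0 : 0 ≤ W := by
    rw [hW]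
    positivity
  have hA' : ∀ (k : Fin J → ℤ × ℤ), k ∈ Fintype.piFinset A → ∀ t, k t ∈ arcSet (blk n) (8 * M ^ s) j ∧
      nk (k t) ≤ 2 ^ (n + 1) := by
    intro k hk t
    have h1 := hA t (Fintype.mem_piFinset.1 hk t)
    exact ⟨h1, (nk_lt (Finset.mem_filter.1 h1).1).le⟩
  have hsum : ∀ f : Fin J → ℝ, ∀ V : ℝ, (∀ t, |f t| ≤ V) → |∑ t, f t| ≤ J * V := by
    intro f V h
    refine (Finset.abs_sum_le_sum_abs _ _).trans ((Finset.sum_le_sum fun t _ => h t).trans ?_)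
    rw [Finset.sum_const, Finset.card_univ, Fintype.card_fin, nsmul_eq_mul]
  have key : ∀ m ∈ fq A, |(m.1 : ℝ)| ≤ X ∧ |(m.2 : ℝ)| ≤ X ∧
      |(m.1 : ℝ) * sin θ - m.2 * cos θ| ≤ W := by
    intro m hm
    obtain ⟨k, hk, rfl⟩ := Finset.mem_image.1 hm
    have e1 : (((∑ t, k t : ℤ × ℤ).1 : ℤ) : ℝ) = ∑ t, ((k t).1 : ℝ) := by
      rw [Prod.fst_sum, Int.cast_sum]
    have e2 : (((∑ t, k t : ℤ × ℤ).2 : ℤ) : ℝ) = ∑ t, ((k t).2 : ℝ) := by
      rw [Prod.snd_sum, Int.cast_sum]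
    rw [e1, e2]
    refine ⟨?_, ?_, ?_⟩
    · rw [hX]
      exact hsum _ _ fun t => (abs_fst_le (k t)).trans (hA' k hk t).2
    · rw [hX]
      exact hsum _ _ fun t => (abs_snd_le (k t)).trans (hA' k hk t).2
    · rw [Finset.sum_mul, Finset.sum_mul, ← Finset.sum_sub_distrib, hW]
      refine hsum _ _ fun t => ?_
      have h1 := cross_le hN (hA' k hk t).1
      rw [← hθ] at h1
      exact h1.trans (mul_le_mul_of_nonneg_right (hA' k hk t).2 (by positivity))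
  have hV : 2 * (sqrt 2 * W) ≤ 5 * J * 2 ^ n / M ^ s := by
    have h1 : W = J * 2 ^ n / M ^ s * (π / 2) := by
      rw [hW]
      push_cast
      field_simp
      ring
    have h2 : sqrt 2 * π ≤ 5 := by
      have h3 : sqrt 2 ≤ 1.42 := by
        rw [show (1.42 : ℝ) = sqrt (1.42 ^ 2) from (sqrt_sq (by norm_num)).symm]
        exact sqrt_le_sqrt (by norm_num)
      nlinarith [pi_lt_d2, pi_pos, sqrt_nonneg 2]
    have h4 : (0 : ℝ) ≤ J * 2 ^ n / M ^ s := by positivity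
    rw [h1]
    calc 2 * (sqrt 2 * (J * 2 ^ n / M ^ s * (π / 2))) = J * 2 ^ n / M ^ s * (sqrt 2 * π) := by ring
      _ ≤ J * 2 ^ n / M ^ s * 5 := mul_le_mul_of_nonneg_left h2 h4
      _ = 5 * J * 2 ^ n / M ^ s := by ring
  have hXX : 2 * X + 1 ≤ 8 * J * 2 ^ n + 1 := by
    rw [hX, pow_succ]
    have : (0 : ℝ) ≤ J * 2 ^ n := by positivity
    nlinarith
  have hfin : (2 * X + 1) * (2 * (sqrt 2 * W) + 1) ≤
      (8 * J * 2 ^ n + 1) * (5 * J * 2 ^ n / M ^ s + 1) :=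
    mul_le_mul hXX (by linarith) (by positivity) (by positivity)
  refine le_trans ?_ hfin
  -- one of the two coordinates
  have hdiv : ∀ {c d : ℝ}, 1 / 2 ≤ c ^ 2 → |d * c| ≤ 2 * W → |d| ≤ 2 * (sqrt 2 * W) := by
    intro c d hc hd
    rw [abs_mul] at hd
    have h1 : 1 ≤ sqrt 2 * |c| := by
      have h2 : 1 ≤ (sqrt 2 * |c|) ^ 2 := by
        rw [mul_pow, sq_sqrt (by norm_num : (0 : ℝ) ≤ 2), sq_abs]
        linarith
      nlinarith [mul_nonneg (sqrt_nonneg 2) (abs_nonneg c)]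
    calc |d| = |d| * 1 := (mul_one _).symm
      _ ≤ |d| * (sqrt 2 * |c|) := mul_le_mul_of_nonneg_left h1 (abs_nonneg d)
      _ = sqrt 2 * (|d| * |c|) := by ring
      _ ≤ sqrt 2 * (2 * W) := mul_le_mul_of_nonneg_left hd (sqrt_nonneg 2)
      _ = 2 * (sqrt 2 * W) := by ring
  rcases le_or_gt (1 / 2) (cos θ ^ 2) with hc | hc
  · refine card_strip _ hX0 (by positivity) (fun m hm => (key m hm).1) fun m hm m' hm' he => ?_
    refine hdiv hc ?_
    have h1 := (key m hm).2.2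
    have h2 := (key m' hm').2.2
    have h3 : ((m.2 : ℝ) - m'.2) * cos θ =
        ((m'.1 : ℝ) * sin θ - m'.2 * cos θ) - ((m.1 : ℝ) * sin θ - m.2 * cos θ) := by
      rw [he]
      ring
    rw [h3]
    exact (abs_sub _ _).trans (by linarith)
  · have hs : 1 / 2 ≤ sin θ ^ 2 := by
      have := sin_sq_add_cos_sq θ
      linarith
    have h0 : ((fq A).card : ℝ) = (((fq A).image Prod.swap).card : ℝ) := by
      rw [Finset.card_image_of_injective _ Prod.swap_injective]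
    rw [h0]
    refine card_strip _ hX0 (by positivity) (fun m hm => ?_) fun m hm m' hm' he => ?_
    · obtain ⟨q, hq, rfl⟩ := Finset.mem_image.1 hm
      exact (key q hq).2.1
    · obtain ⟨q, hq, rfl⟩ := Finset.mem_image.1 hm
      obtain ⟨q', hq', rfl⟩ := Finset.mem_image.1 hm'
      have he' : q.2 = q'.2 := he
      refine hdiv hs ?_
      have h1 := (key q hq).2.2
      have h2 := (key q' hq').2.2
      show |((q.1 : ℝ) - q'.1) * sin θ| ≤ 2 * W
      have h3 : ((q.1 : ℝ) - q'.1) * sin θ =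
          ((q.1 : ℝ) * sin θ - q.2 * cos θ) - ((q'.1 : ℝ) * sin θ - q'.2 * cos θ) := by
        rw [he']
        ring
      rw [h3]
      exact (abs_sub _ _).trans (by linarith)

/-- a child arc lies in its parent -/
theorem arc_child (B : Finset (ℤ × ℤ)) {M s j a : ℕ} (hM : 1 ≤ M) (ha : a < M) :
    arcSet B (8 * M ^ (s + 1)) (M * j + a) ⊆ arcSet B (8 * M ^ s) j := by
  classical
  intro k hk
  obtain ⟨h1, h2⟩ := Finset.mem_filter.1 hk
  refine Finset.mem_filter.2 ⟨h1, ?_⟩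
  have hM0 : (0 : ℝ) < M := by exact_mod_cast hM
  have hx : 0 ≤ xk k := Int.fract_nonneg _
  have e1 : ((8 * M ^ (s + 1) : ℕ) : ℝ) * xk k = M * (((8 * M ^ s : ℕ) : ℝ) * xk k) := by
    push_cast
    ring
  obtain ⟨z, hz⟩ : ∃ z : ℝ, z = ((8 * M ^ s : ℕ) : ℝ) * xk k := ⟨_, rfl⟩
  have hz0 : 0 ≤ z := by
    rw [hz]
    positivity
  rw [e1, ← hz] at h2
  rw [← hz]
  have h3 : ((M * j + a : ℕ) : ℝ) ≤ M * z := by
    rw [← h2]
    exact Nat.floor_le (by positivity)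
  have h4 : (M : ℝ) * z < ((M * j + a : ℕ) : ℝ) + 1 := by
    rw [← h2]
    exact Nat.lt_floor_add_one _
  rw [Nat.floor_eq_iff hz0]
  push_cast at h3 h4
  have ha' : (a : ℝ) + 1 ≤ M := by exact_mod_cast ha
  have ha0 : (0 : ℝ) ≤ a := Nat.cast_nonneg a
  constructor
  · by_contra hcon
    push Not at hcon
    have := mul_lt_mul_of_pos_left hcon hM0
    linarith
  · by_contra hcon
    push Not at hcon
    have := mul_le_mul_of_nonneg_left hcon hM0.le
    linarith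

end Pool.Agent.Helper43.AD
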